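import Pool.Agent.HP1b.Core
import Pool.Agent.HStar.Asm2

/-!
# The supersolutions for `s ∈ (0, 1/10]`, `k ≥ 6`
-/

set_option autoImplicit false

namespace Pool.Agent.HP1b

open Set Complex Pool.Agent.HHalf Pool.Agent.HStar Pool.Agent.HFin Polynomial

theorem sc6_0 {s : ℝ} (h0 : 0 ≤ s) (h1 : s ≤ 1 / 200) : Sc 6 s := by
  refine ⟨fun j => if j = 1 then 353 / 100 else if j = 2 then 163 / 20 else if j = 3 then 589 / 40 else if j = 4 then 3431 / 200 else if j = 5 then 21 / 4 else 1, ?_, ?_, ?_, ?_, ?_⟩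
  · intro j; dsimp only; split_ifs <;> norm_num
  · norm_num
  · norm_num <;> linarith
  · intro j hj1 hj2
    have hj3 : j ≤ 4 := by omega
    interval_cases j <;> norm_num <;> linarith
  · norm_num <;> linarith

theorem sc6_1 {s : ℝ} (h0 : 1 / 200 ≤ s) (h1 : s ≤ 1 / 100) : Sc 6 s := by
  refine ⟨fun j => if j = 1 then 83 / 25 else if j = 2 then 1481 / 200 else if j = 3 then 1317 / 100 else if j = 4 then 1537 / 100 else if j = 5 then 103 / 20 else 1, ?_, ?_, ?_, ?_, ?_⟩
  · intro j; dsimp only; split_ifs <;> norm_num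
  · norm_num
  · norm_num <;> linarith
  · intro j hj1 hj2
    have hj3 : j ≤ 4 := by omega
    interval_cases j <;> norm_num <;> linarith
  · norm_num <;> linarith

theorem sc6_2 {s : ℝ} (h0 : 1 / 100 ≤ s) (h1 : s ≤ 1 / 50) : Sc 6 s := by
  refine ⟨fun j => if j = 1 then 317 / 100 else if j = 2 then 681 / 100 else if j = 3 then 1191 / 100 else if j = 4 then 2783 / 200 else if j = 5 then 1011 / 200 else 1, ?_, ?_, ?_, ?_, ?_⟩
  · intro j; dsimp only; split_ifs <;> norm_num
  · norm_num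
  · norm_num <;> linarith
  · intro j hj1 hj2
    have hj3 : j ≤ 4 := by omega
    interval_cases j <;> norm_num <;> linarith
  · norm_num <;> linarith

theorem sc6_3 {s : ℝ} (h0 : 1 / 50 ≤ s) (h1 : s ≤ 1 / 25) : Sc 6 s := by
  refine ⟨fun j => if j = 1 then 147 / 50 else if j = 2 then 59 / 10 else if j = 3 then 1999 / 200 else if j = 4 then 117 / 10 else if j = 5 then 122 / 25 else 1, ?_, ?_, ?_, ?_, ?_⟩
  · intro j; dsimp only; split_ifs <;> norm_num
  · norm_num
  · norm_num <;> linarith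
  · intro j hj1 hj2
    have hj3 : j ≤ 4 := by omega
    interval_cases j <;> norm_num <;> linarith
  · norm_num <;> linarith

theorem sc6_4 {s : ℝ} (h0 : 1 / 25 ≤ s) (h1 : s ≤ 7 / 100) : Sc 6 s := by
  refine ⟨fun j => if j = 1 then 263 / 100 else if j = 2 then 949 / 200 else if j = 3 then 759 / 100 else if j = 4 then 889 / 100 else if j = 5 then 229 / 50 else 1, ?_, ?_, ?_, ?_, ?_⟩
  · intro j; dsimp only; split_ifs <;> norm_num
  · norm_num
  · norm_num <;> linarith
  · intro j hj1 hj2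
    have hj3 : j ≤ 4 := by omega
    interval_cases j <;> norm_num <;> linarith
  · norm_num <;> linarith

theorem sc6_5 {s : ℝ} (h0 : 7 / 100 ≤ s) (h1 : s ≤ 1 / 10) : Sc 6 s := by
  refine ⟨fun j => if j = 1 then 473 / 200 else if j = 2 then 763 / 200 else if j = 3 then 1133 / 200 else if j = 4 then 33 / 5 else if j = 5 then 847 / 200 else 1, ?_, ?_, ?_, ?_, ?_⟩
  · intro j; dsimp only; split_ifs <;> norm_num
  · norm_num
  · norm_num <;> linarith
  · intro j hj1 hj2
    have hj3 : j ≤ 4 := by omega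
    interval_cases j <;> norm_num <;> linarith
  · norm_num <;> linarith

theorem sc6 {s : ℝ} (h0 : 0 ≤ s) (h1 : s ≤ 1 / 10) : Sc 6 s := by
  rcases le_total s (1 / 200) with h | h
  · exact sc6_0 h0 h
  rcases le_total s (1 / 100) with h | h
  · exact sc6_1 (by linarith) h
  rcases le_total s (1 / 50) with h | h
  · exact sc6_2 (by linarith) h
  rcases le_total s (1 / 25) with h | h
  · exact sc6_3 (by linarith) h
  rcases le_total s (7 / 100) with h | h
  · exact sc6_4 (by linarith) h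
  exact sc6_5 h h1

theorem sc7_0 {s : ℝ} (h0 : 0 ≤ s) (h1 : s ≤ 1 / 20) : Sc 7 s := by
  refine ⟨fun j => if j = 1 then 5 / 2 else if j = 2 then 211 / 40 else if j = 3 then 2129 / 200 else if j = 4 then 1763 / 100 else if j = 5 then 97 / 5 else if j = 6 then 23 / 4 else 1, ?_, ?_, ?_, ?_, ?_⟩
  · intro j; dsimp only; split_ifs <;> norm_num
  · norm_num
  · norm_num <;> linarith
  · intro j hj1 hj2
    have hj3 : j ≤ 5 := by omega
    interval_cases j <;> norm_num <;> linarith
  · norm_num <;> linarith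

theorem sc7_1 {s : ℝ} (h0 : 1 / 20 ≤ s) (h1 : s ≤ 1 / 10) : Sc 7 s := by
  refine ⟨fun j => if j = 1 then 77 / 40 else if j = 2 then 299 / 100 else if j = 3 then 191 / 40 else if j = 4 then 1403 / 200 else if j = 5 then 1599 / 200 else if j = 6 then 473 / 100 else 1, ?_, ?_, ?_, ?_, ?_⟩
  · intro j; dsimp only; split_ifs <;> norm_num
  · norm_num
  · norm_num <;> linarith
  · intro j hj1 hj2
    have hj3 : j ≤ 5 := by omega
    interval_cases j <;> norm_num <;> linarith
  · norm_num <;> linarith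

theorem sc7 {s : ℝ} (h0 : 0 ≤ s) (h1 : s ≤ 1 / 10) : Sc 7 s := by
  rcases le_total s (1 / 20) with h | h
  · exact sc7_0 h0 h
  exact sc7_1 h h1

theorem sc8_0 {s : ℝ} (h0 : 0 ≤ s) (h1 : s ≤ 1 / 10) : Sc 8 s := by
  refine ⟨fun j => if j = 1 then 99 / 50 else if j = 2 then 71 / 20 else if j = 3 then 139 / 20 else if j = 4 then 1311 / 100 else if j = 5 then 4087 / 200 else if j = 6 then 2159 / 100 else if j = 7 then 25 / 4 else 1, ?_, ?_, ?_, ?_, ?_⟩
  · intro j; dsimp only; split_ifs <;> norm_num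
  · norm_num
  · norm_num <;> linarith
  · intro j hj1 hj2
    have hj3 : j ≤ 6 := by omega
    interval_cases j <;> norm_num <;> linarith
  · norm_num <;> linarith

theorem sc8 {s : ℝ} (h0 : 0 ≤ s) (h1 : s ≤ 1 / 10) : Sc 8 s := by
  exact sc8_0 h0 h1

theorem cs1 {u s : ℝ} (hu : 0 ≤ u) (h0 : 0 ≤ s) (h1 : s ≤ 1 / 10) :
    (21 / 5) * (((9 + u) - 1) * (((9 + u) + 3 + 1) * s + 2 * (1 + 1))) ≤
    ((113 / 50) - 1) * ((2 * ((9 + u) - (1 + 1)) - 3 / 2 + (2 * (1 + 1) + 1) * s) * ((9 + u) + 3 + 1)) := by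
  have a0 : 0 ≤ (1 - 10 * s) * (63 / 25 * u ^ 2 + 3171 / 100 * u + 1407 / 20) := mul_nonneg (by linarith) (by positivity)
  have a1 : 0 ≤ (10 * s) * (21 / 10 * u ^ 2 + 588 / 25 * u + 1743 / 50) := by positivity
  linarith

theorem cs2 {u s : ℝ} (hu : 0 ≤ u) (h0 : 0 ≤ s) (h1 : s ≤ 1 / 10) :
    (173 / 20) * (((9 + u) - 2) * (((9 + u) + 3 + 2) * s + 2 * (2 + 1))) ≤
    ((21 / 5) - 1) * ((2 * ((9 + u) - (2 + 1)) - 3 / 2 + (2 * (2 + 1) + 1) * s) * ((9 + u) + 3 + 2)) := by
  have a0 : 0 ≤ (1 - 10 * s) * (32 / 5 * u ^ 2 + 713 / 10 * u + 1071 / 10) := mul_nonneg (by linarith) (by positivity)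
  have a1 : 0 ≤ (10 * s) * (1107 / 200 * u ^ 2 + 443 / 8 * u + 5369 / 100) := by positivity
  linarith

theorem cs3 {u s : ℝ} (hu : 0 ≤ u) (h0 : 0 ≤ s) (h1 : s ≤ 1 / 10) :
    17 * (((9 + u) - 3) * (((9 + u) + 3 + 3) * s + 2 * (3 + 1))) ≤
    ((173 / 20) - 1) * ((2 * ((9 + u) - (3 + 1)) - 3 / 2 + (2 * (3 + 1) + 1) * s) * ((9 + u) + 3 + 3)) := by
  have a0 : 0 ≤ (1 - 10 * s) * (153 / 10 * u ^ 2 + 6341 / 40 * u + 1275 / 8) := mul_nonneg (by linarith) (by positivity)
  have a1 : 0 ≤ (10 * s) * (68 / 5 * u ^ 2 + 12971 / 100 * u + 2193 / 20) := by positivity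
  linarith

theorem cs4 {u s : ℝ} (hu : 0 ≤ u) (h0 : 0 ≤ s) (h1 : s ≤ 1 / 10) :
    (1429 / 45) * (((9 + u) - 4) * (((9 + u) + 3 + 4) * s + 2 * (4 + 1))) ≤
    (17 - 1) * ((2 * ((9 + u) - (4 + 1)) - 3 / 2 + (2 * (4 + 1) + 1) * s) * ((9 + u) + 3 + 4)) := by
  have a0 : 0 ≤ (1 - 10 * s) * (32 * u ^ 2 + 2686 / 9 * u + 686 / 9) := mul_nonneg (by linarith) (by positivity)
  have a1 : 0 ≤ (10 * s) * (12971 / 450 * u ^ 2 + 112211 / 450 * u + 934 / 9) := by positivity
  linarith

theorem ct4 {u s : ℝ} (hu : 0 ≤ u) (h0 : 0 ≤ s) (h1 : s ≤ 1 / 10) :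
    (12 / 5 * (9 + u) + 13) * (((9 + u) - (5 + u)) * (((9 + u) + 3 + (5 + u)) * s + 2 * ((5 + u) + 1))) ≤
    ((32 / 15 * (9 + u) + 113 / 9) - 1) * ((2 * ((9 + u) - ((5 + u) + 1)) - 3 / 2 + (2 * ((5 + u) + 1) + 1) * s) * ((9 + u) + 3 + (5 + u))) := by
  have a0 : 0 ≤ (1 - 10 * s) * (48 * u + 692) := mul_nonneg (by linarith) (by positivity)
  have a1 : 0 ≤ (10 * s) * (64 / 75 * u ^ 3 + 5216 / 225 * u ^ 2 + 5892 / 25 * u + 255694 / 225) := by positivity
  linarith

theorem ct3 {u s : ℝ} (hu : 0 ≤ u) (h0 : 0 ≤ s) (h1 : s ≤ 1 / 10) :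
    (2 * (9 + u) + 10) * (((9 + u) - (6 + u)) * (((9 + u) + 3 + (6 + u)) * s + 2 * ((6 + u) + 1))) ≤
    ((12 / 5 * (9 + u) + 13) - 1) * ((2 * ((9 + u) - ((6 + u) + 1)) - 3 / 2 + (2 * ((6 + u) + 1) + 1) * s) * ((9 + u) + 3 + (6 + u))) := by
  have a0 : 0 ≤ (1 - 10 * s) * (24 * u + 336) := mul_nonneg (by linarith) (by positivity)
  have a1 : 0 ≤ (10 * s) * (24 / 25 * u ^ 3 + 702 / 25 * u ^ 2 + 7074 / 25 * u + 1092) := by positivity
  linarith

theorem ct2 {u s : ℝ} (hu : 0 ≤ u) (h0 : 0 ≤ s) (h1 : s ≤ 1 / 10) :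
    ((2 * (9 + u) + 9) / 4) * (((9 + u) - (7 + u)) * (((9 + u) + 3 + (7 + u)) * s + 2 * ((7 + u) + 1))) ≤
    ((2 * (9 + u) + 10) - 1) * ((2 * ((9 + u) - ((7 + u) + 1)) - 3 / 2 + (2 * ((7 + u) + 1) + 1) * s) * ((9 + u) + 3 + (7 + u))) := by
  have a0 : 0 ≤ (1 - 10 * s) * (3 * u + 81 / 2) := mul_nonneg (by linarith) (by positivity)
  have a1 : 0 ≤ (10 * s) * (4 / 5 * u ^ 3 + 25 * u ^ 2 + 1287 / 5 * u + 17739 / 20) := by positivity
  linarith

theorem cbulk {u v s : ℝ} (hu : 0 ≤ u) (hv : 0 ≤ v) (h0 : 0 ≤ s) (h1 : s ≤ 1 / 10) :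
    (32 / 15 * (10 + v) + 113 / 9) * (((10 + u + v) - (5 + v)) * (((10 + u + v) + 3 + (5 + v)) * s + 2 * ((5 + v) + 1))) ≤
    ((32 / 15 * (9 + v) + 113 / 9) - 1) * ((2 * ((10 + u + v) - ((5 + v) + 1)) - 3 / 2 + (2 * ((5 + v) + 1) + 1) * s) * ((10 + u + v) + 3 + (5 + v))) := by
  have a0 : 0 ≤ (1 - 10 * s) * (64 / 15 * u * v ^ 2 + 64 / 15 * u ^ 2 * v + 5414 / 45 * u * v + 2768 / 45 * u ^ 2 + 32 / 5 * v ^ 2 + 8104 / 9 * u + 2738 / 15 * v + 23476 / 15) := mul_nonneg (by linarith) (by positivity)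
  have a1 : 0 ≤ (10 * s) * (64 / 15 * u * v ^ 2 + 304 / 75 * u ^ 2 * v + 64 / 75 * v ^ 3 + 26449 / 225 * u * v + 5231 / 90 * u ^ 2 + 6704 / 225 * v ^ 2 + 388117 / 450 * u + 83261 / 225 * v + 148481 / 75) := by positivity
  linarith

/-- The supersolution for `k ≥ 9`. -/
noncomputable def ww (k j : ℕ) : ℝ :=
  if j = 1 then 113 / 50 else if j = 2 then 21 / 5 else if j = 3 then 173 / 20
  else if j = 4 then 17 else if j + 4 ≤ k then 32 / 15 * (j + 4) + 113 / 9
  else if j + 3 = k then 12 / 5 * k + 13 else if j + 2 = k then 2 * k + 10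
  else if j + 1 = k then (2 * k + 9) / 4 else 1

theorem sc_big {k : ℕ} (hk : 9 ≤ k) {s : ℝ} (h0 : 0 ≤ s) (h1 : s ≤ 1 / 10) : Sc k s := by
  obtain ⟨u, rfl⟩ : ∃ u, k = 9 + u := ⟨k - 9, by omega⟩
  have hu : (0:ℝ) ≤ u := Nat.cast_nonneg u
  refine ⟨ww (9 + u), ?_, ?_, ?_, ?_, ?_⟩
  · intro j
    unfold ww
    split_ifs <;> positivity
  · unfold ww
    rw [if_neg (by omega), if_neg (by omega), if_neg (by omega), if_neg (by omega),
      if_neg (by omega), if_neg (by omega), if_neg (by omega), if_neg (by omega)]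
  · have e : 9 + u - 1 = 8 + u := by omega
    rw [e]
    unfold ww
    rw [if_neg (by omega), if_neg (by omega), if_neg (by omega), if_neg (by omega),
      if_neg (by omega), if_neg (by omega), if_neg (by omega), if_neg (by omega),
      if_neg (by omega), if_neg (by omega), if_neg (by omega), if_neg (by omega),
      if_neg (by omega), if_neg (by omega), if_neg (by omega), if_pos (by omega)]
    push_cast
    nlinarith [mul_nonneg hu h0, mul_nonneg (mul_nonneg hu hu) h0]
  · intro j hj1 hj2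
    rcases Nat.lt_or_ge j 5 with hj | hj
    · interval_cases j
      · have h := cs1 hu h0 h1
        have e1 : ww (9 + u) (1 + 1) = 21 / 5 := by unfold ww; norm_num
        have e2 : ww (9 + u) 1 = 113 / 50 := by unfold ww; norm_num
        rw [e1, e2]; push_cast; linarith
      · have h := cs2 hu h0 h1
        have e1 : ww (9 + u) (2 + 1) = 173 / 20 := by unfold ww; norm_num
        have e2 : ww (9 + u) 2 = 21 / 5 := by unfold ww; norm_num
        rw [e1, e2]; push_cast; linarith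
      · have h := cs3 hu h0 h1
        have e1 : ww (9 + u) (3 + 1) = 17 := by unfold ww; norm_num
        have e2 : ww (9 + u) 3 = 173 / 20 := by unfold ww; norm_num
        rw [e1, e2]; push_cast; linarith
      · have h := cs4 hu h0 h1
        have e1 : ww (9 + u) (4 + 1) = 1429 / 45 := by
          unfold ww
          rw [if_neg (by omega), if_neg (by omega), if_neg (by omega), if_neg (by omega),
            if_pos (by omega)]
          norm_num
        have e2 : ww (9 + u) 4 = 17 := by unfold ww; norm_num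
        rw [e1, e2]; push_cast; linarith
    · by_cases c4 : j + 5 ≤ 9 + u
      · obtain ⟨v, rfl⟩ : ∃ v, j = 5 + v := ⟨j - 5, by omega⟩
        obtain ⟨p, rfl⟩ : ∃ p, u = 1 + p + v := ⟨u - 1 - v, by omega⟩
        have hp : (0:ℝ) ≤ p := Nat.cast_nonneg p
        have hv : (0:ℝ) ≤ v := Nat.cast_nonneg v
        have h := cbulk hp hv h0 h1
        have e1 : ww (9 + (1 + p + v)) (5 + v + 1) = 32 / 15 * (10 + v) + 113 / 9 := by
          unfold ww
          rw [if_neg (by omega), if_neg (by omega), if_neg (by omega), if_neg (by omega),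
            if_pos (by omega)]
          push_cast; ring
        have e2 : ww (9 + (1 + p + v)) (5 + v) = 32 / 15 * (9 + v) + 113 / 9 := by
          unfold ww
          rw [if_neg (by omega), if_neg (by omega), if_neg (by omega), if_neg (by omega),
            if_pos (by omega)]
          push_cast; ring
        have e3 : (((9 + (1 + p + v) : ℕ)) : ℝ) = 10 + p + v := by push_cast; ring
        have e4 : (((5 + v : ℕ)) : ℝ) = 5 + v := by push_cast; ring
        rw [e1, e2, e3, e4]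
        exact h
      · rcases (by omega : j = 5 + u ∨ j = 6 + u ∨ j = 7 + u) with rfl | rfl | rfl
        · have h := ct4 hu h0 h1
          have e1 : ww (9 + u) (5 + u + 1) = 12 / 5 * (9 + u) + 13 := by
            unfold ww
            rw [if_neg (by omega), if_neg (by omega), if_neg (by omega), if_neg (by omega),
              if_neg (by omega), if_pos (by omega)]
            push_cast; ring
          have e2 : ww (9 + u) (5 + u) = 32 / 15 * (9 + u) + 113 / 9 := by
            unfold ww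
            rw [if_neg (by omega), if_neg (by omega), if_neg (by omega), if_neg (by omega),
              if_pos (by omega)]
            push_cast; ring
          rw [e1, e2]; push_cast; exact h
        · have h := ct3 hu h0 h1
          have e1 : ww (9 + u) (6 + u + 1) = 2 * (9 + u) + 10 := by
            unfold ww
            rw [if_neg (by omega), if_neg (by omega), if_neg (by omega), if_neg (by omega),
              if_neg (by omega), if_neg (by omega), if_pos (by omega)]
            push_cast; ring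
          have e2 : ww (9 + u) (6 + u) = 12 / 5 * (9 + u) + 13 := by
            unfold ww
            rw [if_neg (by omega), if_neg (by omega), if_neg (by omega), if_neg (by omega),
              if_neg (by omega), if_pos (by omega)]
            push_cast; ring
          rw [e1, e2]; push_cast; exact h
        · have h := ct2 hu h0 h1
          have e1 : ww (9 + u) (7 + u + 1) = (2 * (9 + u) + 9) / 4 := by
            unfold ww
            rw [if_neg (by omega), if_neg (by omega), if_neg (by omega), if_neg (by omega),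
              if_neg (by omega), if_neg (by omega), if_neg (by omega), if_pos (by omega)]
            push_cast; ring
          have e2 : ww (9 + u) (7 + u) = 2 * (9 + u) + 10 := by
            unfold ww
            rw [if_neg (by omega), if_neg (by omega), if_neg (by omega), if_neg (by omega),
              if_neg (by omega), if_neg (by omega), if_pos (by omega)]
            push_cast; ring
          rw [e1, e2]; push_cast; exact h
  · have e2 : ww (9 + u) 1 = 113 / 50 := by unfold ww; norm_num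
    rw [e2]
    push_cast
    have h3 : (9 + (u:ℝ)) * (2 / (9 + u + 3)) ≤ 2 := by
      rw [mul_div_assoc', div_le_iff₀ (by positivity)]
      linarith
    nlinarith [mul_nonneg hu h0]

/-- Every `k ≥ 6` has a supersolution on `[0, 1/10]`. -/
theorem sc_all {k : ℕ} (hk : 6 ≤ k) {s : ℝ} (h0 : 0 ≤ s) (h1 : s ≤ 1 / 10) : Sc k s := by
  rcases Nat.lt_or_ge k 9 with h | h
  · interval_cases k
    · exact sc6 h0 h1
    · exact sc7 h0 h1
    · exact sc8 h0 h1
  · exact sc_big h h0 h1

/-- THE MIDDLE REGION FOR `x ∈ [9/10, 1)`, all orders `k ≥ 6`, `N ≥ k + 1` (form of `MidH`). -/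
theorem pw_right {N k : ℕ} (hk : 6 ≤ k) (hN : k + 1 ≤ N) {L : Fin N → ℂ} (hL : ∀ a, ‖L a‖ ≤ 1)
    {x : ℝ} (h0 : 9 / 10 ≤ x) (h1 : x < 1) (htp : thr N k < ∑ a, (1 - (L a).re))
    (htm : Pool.Agent.HHalfB.bal k < ∑ a, (1 + (L a).re)) (hR : ∃ a, (1 + x) / 2 < (L a).re) :
    PW L k x := by
  obtain ⟨R, hR⟩ := hR
  refine pw_of_sc hk hN hL h0 h1 ?_ ?_ hR.le (sc_all hk (by linarith) (by linarith))
  · refine le_trans ?_ htp.le
    unfold thr Pool.Agent.HHalfC.cth
    rw [if_neg (by omega), if_neg (by omega), if_neg (by omega), if_neg (by omega)]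
    split_ifs
    · exact le_rfl
    · linarith
  · refine le_trans ?_ htm.le
    unfold Pool.Agent.HHalfB.bal
    rw [if_neg (by omega), if_neg (by omega), if_neg (by omega), if_neg (by omega)]

end Pool.Agent.HP1b
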