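import Pool.Agent.HP1b.Tay

/-!
# The chain at `x ∈ [9/10, 1)`: from a supersolution to `PW`
-/

set_option autoImplicit false

namespace Pool.Agent.HP1b

open Set Complex Pool.Agent.HHalf Pool.Agent.HStar Pool.Agent.HFin Polynomial

/-- Summation with a supersolution `w`. -/
theorem sum_super {c w : ℕ → ℝ} (m : ℕ) (hc : ∀ j, 0 ≤ c j)
    (h : ∀ j, j < m → w (j + 1) * c (j + 1) ≤ (w j - 1) * c j) (hw : 1 ≤ w m) :
    ∑ j ∈ Finset.range (m + 1), c j ≤ w 0 * c 0 := by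
  have key : ∀ p, p ≤ m → ∑ j ∈ Finset.range (p + 1), c j + (w p - 1) * c p ≤ w 0 * c 0 := by
    intro p
    induction p with
    | zero => intro _; simp; linarith
    | succ p ih =>
      intro hp
      have h1 := ih (by omega)
      have h2 := h p (by omega)
      rw [Finset.sum_range_succ]
      linarith
  have h1 := key m le_rfl
  have h2 := mul_nonneg (by linarith : 0 ≤ w m - 1) (hc m)
  linarith

theorem FE_two {N k : ℕ} {x : ℝ} (hk : 6 ≤ k) (hN : k + 1 ≤ N) (h0 : 9 / 10 ≤ x) (h1 : x ≤ 1) :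
    2 * ((k:ℝ) - 1) ≤ FE N x (1 - ((k + 1 / 4) - x) / N) := by
  have hk' : (6:ℝ) ≤ k := by exact_mod_cast hk
  have hN' : (k:ℝ) + 1 ≤ N := by exact_mod_cast hN
  have hN0 : (0:ℝ) < N := by linarith
  obtain ⟨a, ha⟩ : ∃ a : ℝ, a = (k + 1 / 4) - x := ⟨_, rfl⟩
  rw [← ha]
  obtain ⟨v, hv⟩ : ∃ v : ℝ, v = a / N := ⟨_, rfl⟩
  have hvN : v * N = a := by rw [hv]; field_simp
  rw [← hv]
  have ha0 : 0 < a := by linarith
  have hv0 : 0 ≤ v := by rw [hv]; positivity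
  have hv1 : v ≤ 1 := by
    rw [hv, div_le_one hN0]; linarith
  have hvK : v * (k + 1) ≤ a := by
    rw [← hvN]; exact mul_le_mul_of_nonneg_left hN' hv0
  unfold FE
  have e1 : 2 * (N:ℝ) * (1 - (1 - v) ^ 2) = 2 * a * (2 - v) := by rw [← hvN]; ring
  rw [e1, abs_of_nonneg (by linarith)]
  have h2 : (2 * a - 3 / 2) * (v * (k + 1)) ≤ (2 * a - 3 / 2) * a :=
    mul_le_mul_of_nonneg_left hvK (by linarith)
  have h3 : v ^ 2 ≤ v := by nlinarith
  have hK : (0:ℝ) < k + 1 := by linarith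
  have h4 : 0 ≤ ((k:ℝ) + 1) * (4 * a - 2 - 2 * x - (2 * a - 3 / 2) * v - 2 * (k - 1)) := by
    have : ((k:ℝ) + 1) * (4 * a - 2 - 2 * x - (2 * a - 3 / 2) * v - 2 * (k - 1)) =
      (k + 1) * (4 * a - 2 - 2 * x) - (2 * a - 3 / 2) * (v * (k + 1)) - 2 * (k - 1) * (k + 1) := by
      ring
    rw [this]
    have h5 : (2 * a - 3 / 2) * a ≤ (k + 1) * (4 * a - 2 - 2 * x) - 2 * (k - 1) * (k + 1) := by
      rw [ha]
      nlinarith
    linarith
  have h5 := nonneg_of_mul_nonneg_right h4 hK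
  nlinarith

theorem FE_one {N k : ℕ} {x : ℝ} (hk : 6 ≤ k) (hN : k + 1 ≤ N) (h0 : 9 / 10 ≤ x) (h1 : x ≤ 1) :
    2 * ((k:ℝ) - 1) ≤ FE N x (((k - 2) + x) / N - 1) := by
  have hk' : (6:ℝ) ≤ k := by exact_mod_cast hk
  have hN' : (k:ℝ) + 1 ≤ N := by exact_mod_cast hN
  have hN0 : (0:ℝ) < N := by linarith
  obtain ⟨a, ha⟩ : ∃ a : ℝ, a = (k - 2) + x := ⟨_, rfl⟩
  rw [← ha]
  obtain ⟨v, hv⟩ : ∃ v : ℝ, v = a / N := ⟨_, rfl⟩
  have hvN : v * N = a := by rw [hv]; field_simp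
  rw [← hv]
  have ha0 : 0 < a := by linarith
  have hv0 : 0 ≤ v := by rw [hv]; positivity
  have hv1 : v ≤ 1 := by
    rw [hv, div_le_one hN0]; linarith
  have hvK : v * (k + 1) ≤ a := by
    rw [← hvN]; exact mul_le_mul_of_nonneg_left hN' hv0
  unfold FE
  have e1 : 2 * (N:ℝ) * (1 - (v - 1) ^ 2) = 2 * a * (2 - v) := by rw [← hvN]; ring
  rw [e1, abs_of_nonneg (by linarith)]
  have h2 : (2 * a + 1 / 2) * (v * (k + 1)) ≤ (2 * a + 1 / 2) * a :=
    mul_le_mul_of_nonneg_left hvK (by linarith)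
  have h3 : v ^ 2 ≤ v := by nlinarith
  have hK : (0:ℝ) < k + 1 := by linarith
  have h4 : 0 ≤ ((k:ℝ) + 1) * (4 * a - 2 * x - (2 * a + 1 / 2) * v - 2 * (k - 1)) := by
    have : ((k:ℝ) + 1) * (4 * a - 2 * x - (2 * a + 1 / 2) * v - 2 * (k - 1)) =
      (k + 1) * (4 * a - 2 * x) - (2 * a + 1 / 2) * (v * (k + 1)) - 2 * (k - 1) * (k + 1) := by
      ring
    rw [this]
    have h5 : (2 * a + 1 / 2) * a ≤ (k + 1) * (4 * a - 2 * x) - 2 * (k - 1) * (k + 1) := by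
      rw [ha]
      nlinarith
    linarith
  have h5 := nonneg_of_mul_nonneg_right h4 hK
  nlinarith

/-- A supersolution for the order `k` at `s = 1 - x`. -/
def Sc (k : ℕ) (s : ℝ) : Prop := ∃ w : ℕ → ℝ, (∀ j, 0 ≤ w j) ∧ 1 ≤ w k ∧
  w k * ((4 + 2 * (2 * k + 1) * s) + (2 * k + 1)) ≤ (w (k - 1) - 1) * (4 + 2 * (2 * k + 1) * s) ∧
  (∀ j, 1 ≤ j → j + 2 ≤ k → w (j + 1) * ((k - j) * ((k + 3 + j) * s + 2 * (j + 1))) ≤
    (w j - 1) * ((2 * (k - (j + 1)) - 3 / 2 + (2 * (j + 1) + 1) * s) * (k + 3 + j))) ∧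
  w 1 * (k * (s + 2 / (k + 3))) ≤ k - 1

/-- The coefficients. -/
noncomputable def bb (k : ℕ) (s : ℝ) (j : ℕ) : ℝ :=
  if j = k then s * (k * tt k s (k - 1) + k * (k - 1) / 2 * gm k (k - 2))
  else (k.choose j : ℝ) * tt k s j

/-- The ratios. -/
noncomputable def rr (k : ℕ) (s : ℝ) (j : ℕ) : ℝ :=
  if j = k then 1 / s else if j < k then j / (2 * (k - j) - 3 / 2 + (2 * j + 1) * s) else 0

theorem bb_nonneg {k : ℕ} (hk : 1 ≤ k) {s : ℝ} (hs : 0 ≤ s) (j : ℕ) : 0 ≤ bb k s j := by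
  have hk' : (1:ℝ) ≤ k := by exact_mod_cast hk
  unfold bb
  split_ifs
  · have h1 := tt_nonneg k hs (k - 1)
    have h2 := (gm_pos k (k - 2)).le
    have h3 : (0:ℝ) ≤ k - 1 := by linarith
    positivity
  · exact mul_nonneg (Nat.cast_nonneg _) (tt_nonneg k hs j)

theorem dd_pos {k j : ℕ} (hj : j < k) {s : ℝ} (hs : 0 ≤ s) :
    0 < 2 * ((k:ℝ) - j) - 3 / 2 + (2 * j + 1) * s := by
  have : (j:ℝ) + 1 ≤ k := by exact_mod_cast hj
  have : (0:ℝ) ≤ (2 * j + 1) * s := by positivity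
  linarith

theorem rr_nonneg (k : ℕ) {s : ℝ} (hs : 0 ≤ s) (j : ℕ) : 0 ≤ rr k s j := by
  unfold rr
  split_ifs with h1 h2
  · positivity
  · have := (dd_pos h2 hs).le
    positivity
  · exact le_rfl

/-- The step inequality. -/
theorem step_mid {k j : ℕ} (hj1 : 1 ≤ j) (hj : j + 2 ≤ k) {s a b : ℝ} (hs : 0 ≤ s) (ha : 0 ≤ a)
    (h : a * ((k - j) * ((k + 3 + j) * s + 2 * (j + 1))) ≤
    b * ((2 * (k - (j + 1)) - 3 / 2 + (2 * (j + 1) + 1) * s) * (k + 3 + j))) :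
    a * (bb k s (j + 1) * rr k s (j + 1)) ≤ b * bb k s j := by
  have hk' : (j:ℝ) + 2 ≤ k := by exact_mod_cast hj
  have n1 : j + 1 ≠ k := by omega
  have n2 : j ≠ k := by omega
  have n3 : j + 1 < k := by omega
  unfold bb rr
  rw [if_neg n1, if_neg n1, if_neg n2, if_pos n3]
  have hD := dd_pos n3 hs
  push_cast at hD ⊢
  set D : ℝ := 2 * ((k:ℝ) - (j + 1)) - 3 / 2 + (2 * (j + 1) + 1) * s with hDd
  have hA : (0:ℝ) < k + 3 + j := by positivity
  have h1 := tt_ratio k hs j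
  have hc : ((k.choose (j + 1) * (j + 1) : ℕ) : ℝ) = ((k.choose j * (k - j) : ℕ) : ℝ) := by
    rw [Nat.choose_succ_right_eq]
  rw [Nat.cast_mul, Nat.cast_mul, Nat.cast_sub (by omega)] at hc
  push_cast at hc
  have h2 : a * ((k.choose (j + 1) : ℝ) * tt k s (j + 1) * ((j + 1) / D)) =
      a * ((k.choose j : ℝ) * (k - j) * tt k s (j + 1)) / D := by
    rw [← hc]; field_simp
  rw [h2, div_le_iff₀ hD]
  have hC : (0:ℝ) ≤ (k.choose j : ℝ) := Nat.cast_nonneg _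
  have hkj : (0:ℝ) ≤ (k:ℝ) - j := by linarith
  have ht := tt_nonneg k hs j
  have h3 : (k + 3 + j) * (a * ((k.choose j : ℝ) * (k - j) * tt k s (j + 1))) ≤
      (k + 3 + j) * (b * ((k.choose j : ℝ) * tt k s j) * D) := by
    have h4 := mul_le_mul_of_nonneg_left h1 (by positivity : 0 ≤ a * ((k.choose j : ℝ) * (k - j)))
    have h5 := mul_le_mul_of_nonneg_right h (by positivity : 0 ≤ (k.choose j : ℝ) * tt k s j)
    linarith
  exact le_of_mul_le_mul_left h3 hA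

theorem step_top {q : ℕ} {s a b : ℝ} (hs : 0 < s) (ha : 0 ≤ a)
    (h : a * ((4 + 2 * (2 * ((q + 2 : ℕ) : ℝ) + 1) * s) + (2 * ((q + 2 : ℕ) : ℝ) + 1)) ≤
      b * (4 + 2 * (2 * ((q + 2 : ℕ) : ℝ) + 1) * s)) :
    a * (bb (q + 2) s (q + 2) * rr (q + 2) s (q + 2)) ≤ b * bb (q + 2) s (q + 1) := by
  unfold bb rr
  rw [if_pos rfl, if_pos rfl, if_neg (by omega)]
  have e1 : q + 2 - 1 = q + 1 := by omega
  have e2 : q + 2 - 2 = q := by omega
  rw [e1, e2]
  have h1 := tt_top q hs.le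
  set T := tt (q + 2) s (q + 1) with hT
  set G := gm (q + 2) q with hG
  have hT0 : 0 ≤ T := tt_nonneg _ hs.le _
  have hG0 : 0 ≤ G := (gm_pos _ _).le
  push_cast at h ⊢
  have e3 : (((q + 2).choose (q + 1) : ℕ) : ℝ) = q + 2 := by
    rw [show q + 2 = (q + 1) + 1 by rfl, Nat.choose_succ_self_right]; push_cast; ring
  rw [e3]
  have e4 : a * (s * (((q:ℝ) + 2) * T + (q + 2) * (q + 2 - 1) / 2 * G) * (1 / s)) =
      a * (((q:ℝ) + 2) * T + (q + 2) * (q + 2 - 1) / 2 * G) := by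
    field_simp
  rw [e4]
  have hP : (0:ℝ) < 4 + 2 * (2 * (q + 2) + 1) * s := by positivity
  have h2 : (4 + 2 * (2 * ((q:ℝ) + 2) + 1) * s) * (a * (((q:ℝ) + 2) * T + (q + 2) * (q + 2 - 1) / 2 * G)) ≤
      (4 + 2 * (2 * ((q:ℝ) + 2) + 1) * s) * (b * ((q + 2) * T)) := by
    have h3 := mul_le_mul_of_nonneg_left h1 (by positivity : 0 ≤ a * ((q:ℝ) + 2))
    have h4 := mul_le_mul_of_nonneg_right h (by positivity : 0 ≤ ((q:ℝ) + 2) * T)
    linarith
  exact le_of_mul_le_mul_left h2 hP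

theorem bb_one {k : ℕ} (hk : 2 ≤ k) (s : ℝ) : bb k s 1 = k * (s + 2 / (k + 3)) := by
  unfold bb
  rw [if_neg (by omega), Nat.choose_one_right]
  have h := tt_succ k s 0
  rw [tt_zero] at h
  have h3 : (k:ℝ) + 3 ≠ 0 := by positivity
  have e : tt k s (0 + 1) = s + 2 / (k + 3) := by
    rw [eq_comm, add_div' _ _ _ h3, div_eq_iff h3]
    push_cast at h
    linarith
  rw [zero_add] at e
  rw [e]

/-- `PW` from a supersolution. -/
theorem pw_of_sc {N k : ℕ} (hk : 6 ≤ k) (hN : k + 1 ≤ N) {L : Fin N → ℂ} (hL : ∀ a, ‖L a‖ ≤ 1)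
    {x : ℝ} (h0 : 9 / 10 ≤ x) (h1 : x < 1) (htp : (k:ℝ) + 1 / 4 ≤ ∑ a, (1 - (L a).re))
    (htm : (k:ℝ) - 2 ≤ ∑ a, (1 + (L a).re)) {R : Fin N} (hR : (1 + x) / 2 ≤ (L R).re)
    (hS : Sc k (1 - x)) : PW L k x := by
  obtain ⟨w, hw0, hwk, hwt, hwm, hw1⟩ := hS
  have hs : 0 < 1 - x := by linarith
  have hk' : (6:ℝ) ≤ k := by exact_mod_cast hk
  obtain ⟨q, rfl⟩ : ∃ q, k = q + 2 := ⟨k - 2, by omega⟩
  refine pw_prod (by omega) hL (by linarith) h1 (E := ((q + 2 : ℕ) : ℝ) - 1) htp htm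
    (b := bb (q + 2) (1 - x)) (ρ := rr (q + 2) (1 - x)) ?_ (bb_nonneg (by omega) hs.le)
    (rr_nonneg _ hs.le) (FE_one hk hN h0 h1.le) (FE_two hk hN h0 h1.le) ?_ ?_
  · intro M hM j hj1 hjk
    unfold bb
    split_ifs with hj
    · subst hj
      have h2 := corner_le (q := q) (by omega) hL hM (by linarith) h1.le hR
      have e1 : q + 2 - 1 = q + 1 := by omega
      have e2 : q + 2 - 2 = q := by omega
      rw [Nat.sub_self, e1, e2]
      refine h2.trans (le_of_eq ?_)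
      push_cast
      ring
    · exact T1 hN hjk hL hM (by linarith) h1.le
  · intro j hj2 hjk
    unfold rr
    by_cases hj : j = q + 2
    · right
      rw [if_pos hj, one_div, inv_mul_cancel₀ hs.ne']
    · left
      rw [if_neg hj, if_pos (by omega)]
      have hD := dd_pos (by omega : j < q + 2) hs.le
      have hj' : (2:ℝ) ≤ j := by exact_mod_cast hj2
      have e1 : Dp (((q + 2 : ℕ) : ℝ) + 1 / 4) x j =
          2 * (((q + 2 : ℕ) : ℝ) - j) - 3 / 2 + (2 * j + 1) * (1 - x) := by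
        unfold Dp; ring
      constructor
      · rw [e1, div_mul_cancel₀ _ hD.ne']
      · have h3 := Dm_ge (((q + 2 : ℕ) : ℝ) - 2) (by linarith : 0 ≤ x) h1.le j
        rw [div_mul_eq_mul_div, le_div_iff₀ hD]
        apply mul_le_mul_of_nonneg_left _ (by positivity)
        nlinarith
  · have e0 : q + 2 = (q + 1) + 1 := by omega
    have h3 := sum_super (c := fun j => bb (q + 2) (1 - x) (j + 1) *
      ∏ i ∈ Finset.range j, rr (q + 2) (1 - x) (i + 2)) (w := fun j => w (j + 1)) (q + 1)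
      (fun j => mul_nonneg (bb_nonneg (by omega) hs.le _)
        (Finset.prod_nonneg fun i _ => rr_nonneg _ hs.le _)) ?_ hwk
    · refine h3.trans ?_
      simp only [Finset.range_zero, Finset.prod_empty, mul_one, zero_add]
      rw [bb_one (by omega)]
      exact hw1
    · intro j hj
      rw [Finset.prod_range_succ]
      have hP : 0 ≤ ∏ i ∈ Finset.range j, rr (q + 2) (1 - x) (i + 2) :=
        Finset.prod_nonneg fun i _ => rr_nonneg _ hs.le _
      have h4 : w (j + 1 + 1) * (bb (q + 2) (1 - x) (j + 1 + 1) * rr (q + 2) (1 - x) (j + 1 + 1)) ≤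
          (w (j + 1) - 1) * bb (q + 2) (1 - x) (j + 1) := by
        by_cases hjq : j = q
        · subst hjq
          exact step_top hs (hw0 _) hwt
        · refine step_mid (by omega) (by omega) hs.le (hw0 _) ?_
          exact hwm (j + 1) (by omega) (by omega)
      have h5 := mul_le_mul_of_nonneg_right h4 hP
      calc _ = w (j + 1 + 1) * (bb (q + 2) (1 - x) (j + 1 + 1) * rr (q + 2) (1 - x) (j + 1 + 1)) *
            ∏ i ∈ Finset.range j, rr (q + 2) (1 - x) (i + 2) := by ring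
        _ ≤ _ := h5
        _ = _ := by ring

end Pool.Agent.HP1b
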