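import Pool.Agent.HFin.Ends
import Pool.Agent.HStar.Chain

/-!
# Taylor bounds at the corner, order `k`, `2N ≥ 2k + 2`
-/

set_option autoImplicit false

namespace Pool.Agent.HP1b

open Set Complex Pool.Agent.HHalf Pool.Agent.HStar Pool.Agent.HFin Polynomial

/-- `γ_i = 2^i / C(k+2+i, i)`. -/
noncomputable def gm (k i : ℕ) : ℝ := 2 ^ i / ((k + 2 + i).choose i : ℝ)

theorem gm_pos (k i : ℕ) : 0 < gm k i := by
  unfold gm
  have : 0 < (k + 2 + i).choose i := Nat.choose_pos (by omega)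
  positivity

theorem gm_zero (k : ℕ) : gm k 0 = 1 := by simp [gm]

theorem gm_succ (k i : ℕ) : (k + 3 + i) * gm k (i + 1) = 2 * (i + 1) * gm k i := by
  unfold gm
  have h0 : 0 < (k + 2 + i).choose i := Nat.choose_pos (by omega)
  have h1 : 0 < (k + 2 + (i + 1)).choose (i + 1) := Nat.choose_pos (by omega)
  have h2 : (k + 2 + i + 1).choose (i + 1) * (i + 1) = (k + 2 + i + 1) * (k + 2 + i).choose i :=
    (Nat.add_one_mul_choose_eq (k + 2 + i) i).symm
  have h3 : (((k + 2 + i + 1).choose (i + 1) * (i + 1) : ℕ) : ℝ) =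
      (((k + 2 + i + 1) * (k + 2 + i).choose i : ℕ) : ℝ) := by rw [h2]
  push_cast at h3
  have e : k + 2 + (i + 1) = k + 2 + i + 1 := by ring
  rw [e] at h1 ⊢
  have h0' : (0:ℝ) < ((k + 2 + i).choose i : ℕ) := by exact_mod_cast h0
  have h1' : (0:ℝ) < ((k + 2 + i + 1).choose (i + 1) : ℕ) := by exact_mod_cast h1
  rw [mul_div_assoc', mul_div_assoc', div_eq_div_iff h1'.ne' h0'.ne', pow_succ]
  linear_combination (-2:ℝ) * 2 ^ i * h3

/-- `t_j = ∑ C(j,i) s^(j-i) γ_i`. -/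
noncomputable def tt (k : ℕ) (s : ℝ) (j : ℕ) : ℝ :=
  ∑ i ∈ Finset.range (j + 1), (j.choose i : ℝ) * s ^ (j - i) * gm k i

theorem tt_nonneg (k : ℕ) {s : ℝ} (hs : 0 ≤ s) (j : ℕ) : 0 ≤ tt k s j := by
  unfold tt
  refine Finset.sum_nonneg fun i _ => ?_
  have := gm_pos k i
  positivity

theorem tt_pow_le (k : ℕ) {s : ℝ} (hs : 0 ≤ s) (j : ℕ) : s ^ j ≤ tt k s j := by
  unfold tt
  have h := Finset.single_le_sum (f := fun i => (j.choose i : ℝ) * s ^ (j - i) * gm k i)
    (s := Finset.range (j + 1)) (fun i _ => by have := gm_pos k i; positivity)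
    (Finset.mem_range.2 (Nat.succ_pos j))
  simpa [gm_zero] using h

theorem tt_zero (k : ℕ) (s : ℝ) : tt k s 0 = 1 := by simp [tt, gm_zero]

/-- The recurrence of `t_j`. -/
theorem tt_succ (k : ℕ) (s : ℝ) (j : ℕ) :
    (k + 3 + j) * tt k s (j + 1) = (k + 2) * s ^ (j + 1) + (j + 1) * (s + 2) * tt k s j := by
  have h1 : ∀ i ∈ Finset.range (j + 1 + 1), (k + 3 + j : ℝ) * (((j + 1).choose i : ℝ) *
      s ^ (j + 1 - i) * gm k i) = ((j + 1).choose i : ℝ) * s ^ (j + 1 - i) * ((k + 2 + i) * gm k i) +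
      (((j + 1).choose i : ℝ) * (j + 1 - i)) * s ^ (j + 1 - i) * gm k i := by
    intro i _
    ring
  unfold tt
  rw [Finset.mul_sum, Finset.sum_congr rfl h1, Finset.sum_add_distrib, Finset.sum_range_succ',
    Finset.sum_range_succ (fun i => (((j + 1).choose i : ℝ) * (j + 1 - i)) * s ^ (j + 1 - i) * gm k i)]
  have h2 : ∀ i ∈ Finset.range (j + 1), ((j + 1).choose (i + 1) : ℝ) * s ^ (j + 1 - (i + 1)) *
      ((k + 2 + ((i + 1 : ℕ) : ℝ)) * gm k (i + 1)) =
      2 * (j + 1) * ((j.choose i : ℝ) * s ^ (j - i) * gm k i) := by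
    intro i hi
    have e1 : j + 1 - (i + 1) = j - i := by omega
    have h3 := gm_succ k i
    have h4 : (((j + 1).choose (i + 1) * (i + 1) : ℕ) : ℝ) = (((j + 1) * j.choose i : ℕ) : ℝ) := by
      rw [Nat.add_one_mul_choose_eq j i]
    push_cast at h4
    rw [e1]
    push_cast
    have e2 : (k + 2 + (i + 1) : ℝ) = k + 3 + i := by ring
    rw [e2, h3]
    linear_combination (s ^ (j - i) * 2 * gm k i) * h4
  have h5 : ∀ i ∈ Finset.range (j + 1), (((j + 1).choose i : ℝ) * (j + 1 - i)) *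
      s ^ (j + 1 - i) * gm k i = (j + 1) * s * ((j.choose i : ℝ) * s ^ (j - i) * gm k i) := by
    intro i hi
    have hij : i ≤ j := Nat.lt_succ_iff.1 (Finset.mem_range.1 hi)
    have h6 : ((j.choose i * (j + 1) : ℕ) : ℝ) = (((j + 1).choose i * (j + 1 - i) : ℕ) : ℝ) := by
      rw [Nat.choose_mul_succ_eq j i]
    rw [Nat.cast_mul, Nat.cast_mul, Nat.cast_sub (by omega)] at h6
    push_cast at h6
    have e1 : j + 1 - i = (j - i) + 1 := by omega
    rw [← h6, e1, pow_succ]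
    ring
  rw [Finset.sum_congr rfl h2, Finset.sum_congr rfl h5, ← Finset.mul_sum, ← Finset.mul_sum]
  simp [gm_zero]
  ring

/-- The ratio of consecutive `t_j`. -/
theorem tt_ratio (k : ℕ) {s : ℝ} (hs : 0 ≤ s) (j : ℕ) :
    (k + 3 + j) * tt k s (j + 1) ≤ ((k + 3 + j) * s + 2 * (j + 1)) * tt k s j := by
  rw [tt_succ]
  have h1 := mul_le_mul_of_nonneg_left (tt_pow_le k hs j) (by positivity : 0 ≤ (k + 2 : ℝ) * s)
  have e : (k + 2 : ℝ) * s ^ (j + 1) = (k + 2) * s * s ^ j := by ring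
  rw [e]
  linarith

/-- End values: `|H_(k-i) ω(±1)| ≤ C(k,i) γ_i M`. -/
theorem end_le {N k i : ℕ} (hN : k + 1 ≤ N) (hi : i ≤ k) {L : Fin N → ℂ} (hL : ∀ a, ‖L a‖ ≤ 1)
    {M : ℝ} (hM : IsM L k M) {t : ℝ} (ht : |t| = 1) :
    |hv L (k - i) t| ≤ (k.choose i : ℝ) * gm k i * M := by
  have h1 := hv_end hL (Nat.sub_le k i) (by omega : k ≤ 2 * N) ht
  have h2 : |hv L k t| ≤ M := hM t (abs_le.1 ht.le)
  have e1 : k - (k - i) = i := by omega
  rw [e1] at h1
  have h3 : (2 * N).choose k * k.choose (k - i) =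
      (2 * N).choose (k - i) * (2 * N - (k - i)).choose (k - (k - i)) :=
    Nat.choose_mul (by omega)
  rw [Nat.choose_symm hi, e1] at h3
  have h4 : (k + 2 + i).choose i ≤ (2 * N - (k - i)).choose i := Nat.choose_le_choose i (by omega)
  have h5 : ((2 * N).choose (k - i) : ℝ) * ((k + 2 + i).choose i : ℝ) ≤
      ((2 * N).choose k : ℝ) * (k.choose i : ℝ) := by
    have : (2 * N).choose (k - i) * (k + 2 + i).choose i ≤ (2 * N).choose k * k.choose i := by
      rw [h3]; exact Nat.mul_le_mul_left _ h4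
    exact_mod_cast this
  have hA : (0:ℝ) < ((2 * N).choose k : ℕ) := by
    exact_mod_cast Nat.choose_pos (by omega : k ≤ 2 * N)
  have hB : (0:ℝ) < ((k + 2 + i).choose i : ℕ) := by
    exact_mod_cast Nat.choose_pos (by omega : i ≤ k + 2 + i)
  have hM0 : 0 ≤ M := (abs_nonneg _).trans h2
  have h6 : ((2 * N).choose k : ℝ) * |hv L (k - i) t| ≤
      2 ^ i * ((2 * N).choose (k - i) : ℝ) * M :=
    h1.trans (mul_le_mul_of_nonneg_left h2 (by positivity))
  have h7 : ((2 * N).choose (k - i) : ℝ) ≤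
      ((2 * N).choose k : ℝ) * (k.choose i : ℝ) / ((k + 2 + i).choose i : ℝ) := by
    rw [le_div_iff₀ hB]; exact h5
  have h8 : ((2 * N).choose k : ℝ) * |hv L (k - i) t| ≤
      ((2 * N).choose k : ℝ) * ((k.choose i : ℝ) * gm k i * M) := by
    refine h6.trans ?_
    have h9 := mul_le_mul_of_nonneg_right h7 (by positivity : 0 ≤ (2:ℝ) ^ i * M)
    have e2 : ((2 * N).choose k : ℝ) * (k.choose i : ℝ) / ((k + 2 + i).choose i : ℝ) * (2 ^ i * M) =
        ((2 * N).choose k : ℝ) * ((k.choose i : ℝ) * gm k i * M) := by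
      unfold gm; ring
    rw [e2] at h9
    linarith
  exact le_of_mul_le_mul_left h8 hA

/-- The Taylor polynomial at `1`, absolute value. -/
theorem tay_le {N k : ℕ} {L : Fin N → ℂ} (j m : ℕ) {x M : ℝ} (hx0 : -1 ≤ x) (hx1 : x ≤ 1)
    (hmj : m + j = k) (hM : IsM L k M) {B : ℕ → ℝ} (hB : ∀ i, i < j → |hv L (m + i) 1| ≤ B i) :
    |hv L m x| ≤ ∑ i ∈ Finset.range j, ((m + i).choose i : ℝ) * (1 - x) ^ i * B i +
      (k.choose j : ℝ) * (1 - x) ^ j * M := by
  have h1 := taylor_abs (hseq_hv L) (y := 1) (a := -1) (b := 1) (M := M) j m (x := x)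
    ⟨by norm_num, le_rfl⟩ ⟨hx0, hx1⟩ (by rw [hmj]; exact hM)
  rw [hmj, abs_sub_comm x 1, abs_of_nonneg (by linarith : 0 ≤ 1 - x)] at h1
  have h2 : |tay (hv L) 1 m j x| ≤
      ∑ i ∈ Finset.range j, ((m + i).choose i : ℝ) * (1 - x) ^ i * B i := by
    unfold tay
    refine (Finset.abs_sum_le_sum_abs _ _).trans (Finset.sum_le_sum fun i hi => ?_)
    rw [abs_mul, abs_mul, abs_pow, abs_sub_comm x 1, abs_of_nonneg (by linarith : 0 ≤ 1 - x),
      Nat.abs_cast]
    exact mul_le_mul_of_nonneg_left (hB i (Finset.mem_range.1 hi))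
      (mul_nonneg (Nat.cast_nonneg _) (pow_nonneg (by linarith) _))
  have h3 := abs_sub_abs_le_abs_sub (hv L m x) (tay (hv L) 1 m j x)
  linarith

/-- T1: `|H_(k-j) ω(x)| ≤ C(k,j) t_j(1-x) M`. -/
theorem T1 {N k j : ℕ} (hN : k + 1 ≤ N) (hj : j ≤ k) {L : Fin N → ℂ} (hL : ∀ a, ‖L a‖ ≤ 1)
    {M : ℝ} (hM : IsM L k M) {x : ℝ} (hx0 : -1 ≤ x) (hx1 : x ≤ 1) :
    |hv L (k - j) x| ≤ (k.choose j : ℝ) * tt k (1 - x) j * M := by
  have h1 := tay_le j (k - j) hx0 hx1 (by omega) hM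
    (B := fun i => (k.choose (j - i) : ℝ) * gm k (j - i) * M) (by
      intro i hi
      have e : k - j + i = k - (j - i) := by omega
      rw [e]
      exact end_le hN (by omega) hL hM (by norm_num))
  refine h1.trans (le_of_eq ?_)
  unfold tt
  rw [Finset.sum_range_succ', mul_add, add_mul, Finset.mul_sum, Finset.sum_mul,
    ← Finset.sum_range_reflect]
  congr 1
  · refine Finset.sum_congr rfl fun i hi => ?_
    have hij : i < j := Finset.mem_range.1 hi
    have e1 : k - j + (j - 1 - i) = k - (i + 1) := by omega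
    have e2 : j - (j - 1 - i) = i + 1 := by omega
    have e3 : j - 1 - i = j - (i + 1) := by omega
    rw [e1, e2, e3]
    have h3 : k.choose j * j.choose (i + 1) = k.choose (i + 1) * (k - (i + 1)).choose (j - (i + 1)) :=
      Nat.choose_mul (by omega)
    have h4 : (k.choose j : ℝ) * (j.choose (i + 1) : ℝ) =
        (k.choose (i + 1) : ℝ) * ((k - (i + 1)).choose (j - (i + 1)) : ℝ) := by exact_mod_cast h3
    linear_combination (-(1 - x) ^ (j - (i + 1)) * gm k (i + 1) * M) * h4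
  · simp [gm_zero]

/-- `∑_(i<k) C(k,i) s^(k-i) γ_i ≤ k s t_(k-1)`. -/
theorem tt_low (k : ℕ) {s : ℝ} (hs : 0 ≤ s) (j : ℕ) :
    ∑ i ∈ Finset.range (j + 1), ((j + 1).choose i : ℝ) * s ^ (j + 1 - i) * gm k i ≤
      (j + 1) * s * tt k s j := by
  unfold tt
  rw [Finset.mul_sum]
  refine Finset.sum_le_sum fun i hi => ?_
  have hij : i ≤ j := Nat.lt_succ_iff.1 (Finset.mem_range.1 hi)
  have h6 : ((j.choose i * (j + 1) : ℕ) : ℝ) = (((j + 1).choose i * (j + 1 - i) : ℕ) : ℝ) := by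
    rw [Nat.choose_mul_succ_eq j i]
  rw [Nat.cast_mul, Nat.cast_mul, Nat.cast_sub (by omega)] at h6
  push_cast at h6
  have e1 : j + 1 - i = (j - i) + 1 := by omega
  have hij' : (i:ℝ) ≤ j := by exact_mod_cast hij
  have h7 : ((j + 1).choose i : ℝ) ≤ (j.choose i : ℝ) * (j + 1) := by
    rw [h6]
    have : (0:ℝ) ≤ ((j + 1).choose i : ℝ) := Nat.cast_nonneg _
    nlinarith
  rw [e1, pow_succ]
  have hg := (gm_pos k i).le
  have h8 := mul_le_mul_of_nonneg_right h7 (by positivity : 0 ≤ s ^ (j - i) * s * gm k i)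
  linarith

/-- `(2(k-1) + (2k+1)(k-1)s) γ_(k-2) ≤ (2k+1) t_(k-1)`. -/
theorem tt_top (q : ℕ) {s : ℝ} (hs : 0 ≤ s) :
    (2 * (q + 1) + (2 * q + 5) * (q + 1) * s) * gm (q + 2) q ≤ (2 * q + 5) * tt (q + 2) s (q + 1) := by
  have h1 : ((q + 1).choose q : ℝ) * s ^ (q + 1 - q) * gm (q + 2) q +
      ((q + 1).choose (q + 1) : ℝ) * s ^ (q + 1 - (q + 1)) * gm (q + 2) (q + 1) ≤
      tt (q + 2) s (q + 1) := by
    unfold tt
    rw [Finset.sum_range_succ, Finset.sum_range_succ, add_assoc]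
    have : 0 ≤ ∑ i ∈ Finset.range q, ((q + 1).choose i : ℝ) * s ^ (q + 1 - i) * gm (q + 2) i :=
      Finset.sum_nonneg fun i _ => by have := gm_pos (q + 2) i; positivity
    linarith
  have h2 := gm_succ (q + 2) q
  have e1 : q + 1 - q = 1 := by omega
  rw [e1, Nat.choose_self, Nat.sub_self, pow_one, pow_zero] at h1
  have e2 : ((q + 1).choose q : ℝ) = q + 1 := by
    rw [Nat.choose_succ_self_right]; push_cast; ring
  rw [e2] at h1
  push_cast at h1 h2
  have h3 := mul_le_mul_of_nonneg_left h1 (by positivity : (0:ℝ) ≤ 2 * q + 5)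
  have e3 : (q + 2 + 3 + q : ℝ) = 2 * q + 5 := by ring
  rw [e3] at h2
  linarith

/-- The bound of `|ω(x)|` with the corner pair. -/
theorem corner_le {N q : ℕ} (hN : q + 3 ≤ N) {L : Fin N → ℂ} (hL : ∀ a, ‖L a‖ ≤ 1)
    {M : ℝ} (hM : IsM L (q + 2) M) {x : ℝ} (hx0 : -1 ≤ x) (hx1 : x ≤ 1)
    {R : Fin N} (hR : (1 + x) / 2 ≤ (L R).re) :
    |hv L 0 x| ≤ ((q + 2) * (1 - x) * tt (q + 2) (1 - x) (q + 1) +
      (1 - x) * ((q + 2) * (q + 1) / 2) * gm (q + 2) q) * M := by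
  have hs : 0 ≤ 1 - x := by linarith
  have hM0 : 0 ≤ M := (abs_nonneg _).trans (hM 1 ⟨by norm_num, le_rfl⟩)
  have h1 := tay_le (q + 2) 0 hx0 hx1 (by omega) hM
    (B := fun i => if i = 0 then (1 - x) * (((q + 2) * (q + 1) / 2) * gm (q + 2) q * M) else
      ((q + 2).choose (q + 2 - i) : ℝ) * gm (q + 2) (q + 2 - i) * M) (by
      intro i hi
      by_cases h0 : i = 0
      · subst h0
        rw [if_pos rfl]
        have h2 := hv_corner0 hL hR
        rw [abs_of_nonneg (hv_one_nonneg hL _)]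
        refine h2.trans (mul_le_mul_of_nonneg_left ?_ hs)
        have h3 := end_le (k := q + 2) (i := q) (by omega) (by omega) hL hM (t := 1) (by norm_num)
        have e1 : q + 2 - q = 2 := by omega
        rw [e1] at h3
        have e2 : ((q + 2).choose q : ℝ) = (q + 2) * (q + 1) / 2 := by
          have h4 : (q + 2).choose q = (q + 2).choose 2 := by
            rw [← Nat.choose_symm (by omega : q ≤ q + 2), e1]
          rw [h4, Nat.cast_choose_two]
          push_cast; ring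
        rw [e2] at h3
        exact (le_abs_self _).trans h3
      · rw [if_neg h0]
        have e : 0 + i = q + 2 - (q + 2 - i) := by omega
        rw [e]
        exact end_le (by omega) (by omega) hL hM (by norm_num))
  refine h1.trans ?_
  have h5 := tt_low (q + 2) hs (q + 1)
  have h6 := mul_le_mul_of_nonneg_right h5 hM0
  rw [Finset.sum_mul, Finset.sum_range_succ'] at h6
  rw [Finset.sum_range_succ']
  have h7 : ∑ i ∈ Finset.range (q + 1), ((0 + (i + 1)).choose (i + 1) : ℝ) * (1 - x) ^ (i + 1) *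
      (if i + 1 = 0 then (1 - x) * (((q + 2) * (q + 1) / 2) * gm (q + 2) q * M) else
      ((q + 2).choose (q + 2 - (i + 1)) : ℝ) * gm (q + 2) (q + 2 - (i + 1)) * M) =
      ∑ i ∈ Finset.range (q + 1), ((q + 1 + 1).choose (i + 1) : ℝ) *
        (1 - x) ^ (q + 1 + 1 - (i + 1)) * gm (q + 2) (i + 1) * M := by
    rw [← Finset.sum_range_reflect]
    refine Finset.sum_congr rfl fun i hi => ?_
    have hij : i < q + 1 := Finset.mem_range.1 hi
    have e1 : q + 1 - 1 - i + 1 = q + 1 - i := by omega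
    have e2 : q + 2 - (q + 1 - i) = i + 1 := by omega
    have e3 : q + 1 + 1 - (i + 1) = q + 1 - i := by omega
    rw [e1, e2, e3, if_neg (by omega), zero_add, Nat.choose_self]
    push_cast
    ring
  rw [h7]
  simp only [if_true]
  simp only [Nat.choose_zero_right, Nat.choose_self, gm_zero, pow_zero, Nat.sub_zero] at h6 ⊢
  push_cast at h6 ⊢
  have e4 : (q + 1 + 1 : ℝ) = q + 2 := by ring
  rw [e4] at h6
  linarith

end Pool.Agent.HP1b
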